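import Pool.Agent.Helper33.KU.Chi
import Pool.Agent.Helper98.KU.Log
import Pool.Agent.Helper54.KU.Near
import Pool.Agent.Helper23.KU.Peak

/-!
# KU: quotients which are bounded away from zero near the circle are rational
-/

set_option autoImplicit false

namespace Pool.Agent.Helper23.KU

open Polynomial Filter Topology Metric MeasureTheory Set
open Pool.Agent.Helper23.KB (Sph Dom KF Ext)

theorem exists_delta {δ : ℝ} (hδ : 0 < δ) : ∃ δ' > 0, (1 + δ') * (1 + δ') ≤ 1 + δ := by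
  refine ⟨min 1 (δ / 3), lt_min one_pos (by positivity), ?_⟩
  have h1 : min 1 (δ / 3) ≤ 1 := min_le_left _ _
  have h2 : min 1 (δ / 3) ≤ δ / 3 := min_le_right _ _
  have h3 : 0 < min 1 (δ / 3) := lt_min one_pos (by positivity)
  nlinarith

/-- comparison near the circle -/
theorem cmp_circle {f g χ : ℂ → ℂ} {s t : Multiset ℂ} (hs : ∀ a ∈ s, ‖a‖ < 1)
    (ht : ∀ b ∈ t, ‖b‖ < 1)
    (he : ∀ z ∈ ball (0 : ℂ) 1, (s.map fun a => z - a).prod *
        (t.map fun b => 1 - (starRingEnd ℂ) b * z).prod * f z =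
        (t.map fun b => z - b).prod * (s.map fun a => 1 - (starRingEnd ℂ) a * z).prod *
          χ z * g z) {δ : ℝ} (hδ : 0 < δ) :
    ∃ ρ < 1, ∀ z : ℂ, ρ ≤ ‖z‖ → ‖z‖ < 1 →
      ‖f z‖ ≤ (1 + δ) * (‖χ z‖ * ‖g z‖) ∧ ‖χ z‖ * ‖g z‖ ≤ (1 + δ) * ‖f z‖ := by
  obtain ⟨δ', hδ', hδδ⟩ := exists_delta hδ
  obtain ⟨r1, hr1, H1⟩ := prod_near hs hδ'
  obtain ⟨r2, hr2, H2⟩ := prod_near ht hδ'
  refine ⟨max r1 r2, max_lt hr1 hr2, fun z hz hz1 => ?_⟩
  obtain ⟨a1, a2, a3, a4⟩ := H1 z ((le_max_left _ _).trans hz) hz1.le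
  obtain ⟨b1, b2, b3, b4⟩ := H2 z ((le_max_right _ _).trans hz) hz1.le
  have hee := congrArg norm (he z (mem_ball_zero_iff.2 hz1))
  rw [norm_mul, norm_mul, norm_mul, norm_mul, norm_mul] at hee
  set A := ‖(s.map fun a => z - a).prod‖ with hA
  set A' := ‖(s.map fun a => 1 - (starRingEnd ℂ) a * z).prod‖ with hA'
  set B := ‖(t.map fun b => z - b).prod‖ with hB
  set B' := ‖(t.map fun b => 1 - (starRingEnd ℂ) b * z).prod‖ with hB'
  have A0 : 0 < A := norm_pos_iff.2 a1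
  have A'0 : 0 < A' := norm_pos_iff.2 a2
  have B0 : 0 < B := norm_pos_iff.2 b1
  have B'0 : 0 < B' := norm_pos_iff.2 b2
  have hf0 : 0 ≤ ‖f z‖ := norm_nonneg _
  have hX0 : 0 ≤ ‖χ z‖ * ‖g z‖ := mul_nonneg (norm_nonneg _) (norm_nonneg _)
  have hee' : A * B' * ‖f z‖ = B * A' * (‖χ z‖ * ‖g z‖) := by
    rw [hee]
    ring
  constructor
  · have h1 : B * A' ≤ (1 + δ) * (A * B') := by
      calc B * A' ≤ ((1 + δ') * B') * ((1 + δ') * A) :=
            mul_le_mul b3 a4 A'0.le (by positivity)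
        _ = ((1 + δ') * (1 + δ')) * (A * B') := by ring
        _ ≤ (1 + δ) * (A * B') := mul_le_mul_of_nonneg_right hδδ (by positivity)
    have h2 : (A * B') * ‖f z‖ ≤ (A * B') * ((1 + δ) * (‖χ z‖ * ‖g z‖)) := by
      calc (A * B') * ‖f z‖ = B * A' * (‖χ z‖ * ‖g z‖) := hee'
        _ ≤ ((1 + δ) * (A * B')) * (‖χ z‖ * ‖g z‖) := mul_le_mul_of_nonneg_right h1 hX0
        _ = _ := by ring
    exact le_of_mul_le_mul_left h2 (by positivity)
  · have h1 : A * B' ≤ (1 + δ) * (B * A') := by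
      calc A * B' ≤ ((1 + δ') * A') * ((1 + δ') * B) :=
            mul_le_mul a3 b4 B'0.le (by positivity)
        _ = ((1 + δ') * (1 + δ')) * (B * A') := by ring
        _ ≤ (1 + δ) * (B * A') := mul_le_mul_of_nonneg_right hδδ (by positivity)
    have h2 : (B * A') * (‖χ z‖ * ‖g z‖) ≤ (B * A') * ((1 + δ) * ‖f z‖) := by
      calc (B * A') * (‖χ z‖ * ‖g z‖) = A * B' * ‖f z‖ := hee'.symm
        _ ≤ ((1 + δ) * (B * A')) * ‖f z‖ := mul_le_mul_of_nonneg_right h1 hf0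
        _ = _ := by ring
    exact le_of_mul_le_mul_left h2 (by positivity)

/-- a bound off the zeros of `g` holds everywhere -/
theorem bound_off {g χ : ℂ → ℂ} (hg : DifferentiableOn ℂ g (ball 0 1))
    (hg0 : ∃ z ∈ ball (0 : ℂ) 1, g z ≠ 0) (hχ : DifferentiableOn ℂ χ (ball 0 1)) {ρ K : ℝ}
    (hρ : ρ < 1) (h : ∀ z : ℂ, ρ ≤ ‖z‖ → ‖z‖ < 1 → ‖χ z‖ * ‖g z‖ ≤ K * ‖g z‖) :
    ∃ ρ' < 1, ∀ z : ℂ, ρ' ≤ ‖z‖ → ‖z‖ < 1 → ‖χ z‖ ≤ K := by
  refine ⟨(ρ + 1) / 2, by linarith, fun z hz hz1 => ?_⟩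
  have hzb : z ∈ ball (0 : ℂ) 1 := mem_ball_zero_iff.2 hz1
  have hc : ContinuousAt χ z := (hχ.differentiableAt (isOpen_ball.mem_nhds hzb)).continuousAt
  have h1 : ∀ᶠ x in 𝓝[≠] z, ‖χ x‖ ≤ K := by
    have h2 : ∀ᶠ x in 𝓝[≠] z, ρ ≤ ‖x‖ ∧ ‖x‖ < 1 := by
      refine Filter.Eventually.filter_mono nhdsWithin_le_nhds ?_
      have h3 : ∀ᶠ x in 𝓝 z, ρ < ‖x‖ :=
        continuous_norm.continuousAt.eventually (lt_mem_nhds (by linarith))
      have h4 : ∀ᶠ x in 𝓝 z, ‖x‖ < 1 :=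
        continuous_norm.continuousAt.eventually (gt_mem_nhds hz1)
      filter_upwards [h3, h4] with x hx hx1
      exact ⟨hx.le, hx1⟩
    filter_upwards [iso_zeros hg hg0 hzb, h2] with x hx hx2
    exact le_of_mul_le_mul_right (h x hx2.1 hx2.2) (norm_pos_iff.2 hx)
  exact le_of_tendsto ((hc.norm.tendsto).mono_left nhdsWithin_le_nhds) h1

/-- the modulus of `f / g` cannot stay below its bound near the whole circle -/
theorem no_gap {c : ℝ} (h0 : 0 < c) (h1 : c < 1) {f g H : ℂ → ℂ} (h : Ext c f g)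
    (hH : DifferentiableOn ℂ H (ball 0 1)) {M : ℝ} (hM0 : 0 < M)
    (hMz : ∀ z ∈ ball (0 : ℂ) 1, -M ≤ (H z).re) (hH0 : ∀ z ∈ ball (0 : ℂ) 1, (H z).re ≤ 0)
    (hsup : ∀ δ > 0, ∃ z ∈ ball (0 : ℂ) 1, (H z).re < -M + δ)
    (hdom : ∀ δ > 0, ∃ r < 1, ∀ z : ℂ, r ≤ ‖z‖ → ‖z‖ < 1 →
      ‖f z‖ ≤ KF c * (1 + δ) * Real.exp (H z).re * ‖g z‖) : False := by
  by_cases hex : ∃ w ∈ ball (0 : ℂ) 1, (H w).re = -M
  · obtain ⟨w, hw, hwe⟩ := hex
    have hall := re_min hH hMz hw hwe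
    have hexp : Real.exp (-M) < 1 := Real.exp_lt_one_iff.2 (by linarith)
    set η := (1 - Real.exp (-M)) / 2 with hη
    have hη0 : 0 < η := by rw [hη]; linarith
    have hδ0 : 0 < η / Real.exp (-M) := div_pos hη0 (Real.exp_pos _)
    obtain ⟨ρ, hρ, hρ2⟩ := hdom _ hδ0
    refine bdry h0 h1 h (ζ := 1) norm_one hη0 (r := 1 - ρ) (by linarith) ?_
    intro z hz hz1 hz2
    have h3 : ρ ≤ ‖z‖ := by
      have h4 : ‖(1 : ℂ)‖ - ‖z‖ ≤ ‖z - 1‖ := by
        rw [norm_sub_rev]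
        exact norm_sub_norm_le _ _
      rw [norm_one] at h4
      linarith
    have h5 := hρ2 z h3 hz1
    rw [hall z (mem_ball_zero_iff.2 hz1)] at h5
    refine h5.trans (le_of_eq ?_)
    have h6 : (1 + η / Real.exp (-M)) * Real.exp (-M) = 1 - η := by
      rw [add_mul, one_mul, div_mul_cancel₀ _ (Real.exp_pos _).ne', hη]
      ring
    calc KF c * (1 + η / Real.exp (-M)) * Real.exp (-M) * ‖g z‖
        = ((1 + η / Real.exp (-M)) * Real.exp (-M)) * KF c * ‖g z‖ := by ring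
      _ = _ := by rw [h6]
  · push Not at hex
    refine strip h0 h1 h hH hM0 (fun z hz => ⟨?_, hH0 z hz⟩) hsup hdom
    exact lt_of_le_of_ne (hMz z hz) fun h2 => hex z hz h2.symm

/-- Q5 -/
theorem rat_of_below {c : ℝ} (h0 : 0 < c) (h1 : c < 1) {f g : ℂ → ℂ} (h : Ext c f g)
    {r ε : ℝ} (hr : r < 1) (hε : 0 < ε)
    (hlow : ∀ z : ℂ, r ≤ ‖z‖ → ‖z‖ < 1 → ε * ‖g z‖ ≤ ‖f z‖) :
    ∃ p q : ℂ[X], (∀ z : ℂ, ‖z‖ = 1 → q.eval z ≠ 0 ∧ ‖p.eval z‖ = KF c * ‖q.eval z‖) ∧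
      ∀ z ∈ ball (0 : ℂ) 1, q.eval z * f z = p.eval z * g z := by
  have hF : 0 < KF c := kf_pos' h0 h1
  obtain ⟨s, t, χ, hs, ht, hχ, hχ0, he⟩ := chi_exists h0 h1 h hr hε hlow
  have hg : DifferentiableOn ℂ g (ball 0 1) := h.2.1.1
  have hg0 := ne_of_sph h.2.1
  have hcmp := fun {δ : ℝ} (hδ : 0 < δ) => cmp_circle hs ht he hδ
  -- upper bound
  have hup : ∀ z ∈ ball (0 : ℂ) 1, ‖χ z‖ ≤ KF c := by
    refine le_of_lim hF.le hχ fun δ hδ => ?_
    obtain ⟨ρ, hρ, hρ2⟩ := hcmp hδ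
    obtain ⟨ρ', hρ', H⟩ := bound_off (K := KF c * (1 + δ)) hg hg0 hχ (max_lt hρ h1)
      fun z hz hz1 => by
        have h3 := (hρ2 z ((le_max_left _ _).trans hz) hz1).2
        have h4 := h.2.2 z ((le_max_right _ _).trans hz) hz1
        calc ‖χ z‖ * ‖g z‖ ≤ (1 + δ) * ‖f z‖ := h3
          _ ≤ (1 + δ) * (KF c * ‖g z‖) := mul_le_mul_of_nonneg_left h4 (by positivity)
          _ = _ := by ring
    exact ⟨ρ', hρ', H⟩
  -- lower bound
  have hχi : DifferentiableOn ℂ (fun z => (χ z)⁻¹) (ball 0 1) := hχ.inv hχ0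
  have hdn : ∀ z ∈ ball (0 : ℂ) 1, ‖(χ z)⁻¹‖ ≤ ε⁻¹ := by
    refine le_of_lim (inv_pos.2 hε).le hχi fun δ hδ => ?_
    obtain ⟨ρ, hρ, hρ2⟩ := hcmp hδ
    obtain ⟨ρ', hρ', H⟩ := bound_off (K := ε⁻¹ * (1 + δ)) hg hg0 hχi (max_lt hρ hr)
      fun z hz hz1 => by
        have h3 := (hρ2 z ((le_max_left _ _).trans hz) hz1).1
        have h4 := hlow z ((le_max_right _ _).trans hz) hz1
        have h5 : 0 < ‖χ z‖ := norm_pos_iff.2 (hχ0 z (mem_ball_zero_iff.2 hz1))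
        have h6 : ε * ‖g z‖ ≤ (1 + δ) * (‖χ z‖ * ‖g z‖) := h4.trans h3
        rw [norm_inv, inv_mul_le_iff₀ h5]
        calc ‖g z‖ = ε⁻¹ * (ε * ‖g z‖) := by field_simp
          _ ≤ ε⁻¹ * ((1 + δ) * (‖χ z‖ * ‖g z‖)) := mul_le_mul_of_nonneg_left h6 (by positivity)
          _ = _ := by ring
    exact ⟨ρ', hρ', H⟩
  -- the logarithm
  have hFc : (KF c : ℂ) ≠ 0 := by exact_mod_cast hF.ne'
  obtain ⟨H, hH, hHe⟩ := log_exists (χ := fun z => χ z / (KF c : ℂ)) (hχ.div_const _)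
    fun z hz => div_ne_zero (hχ0 z hz) hFc
  have hnH : ∀ z ∈ ball (0 : ℂ) 1, ‖χ z‖ = KF c * Real.exp (H z).re := by
    intro z hz
    have h2 := congrArg norm (hHe z hz)
    rw [norm_div, Complex.norm_exp, Complex.norm_real, Real.norm_of_nonneg hF.le,
      div_eq_iff hF.ne'] at h2
    rw [h2]
    ring
  have hH0 : ∀ z ∈ ball (0 : ℂ) 1, (H z).re ≤ 0 := by
    intro z hz
    have h2 := hup z hz
    rw [hnH z hz] at h2
    have h3 : Real.exp (H z).re ≤ 1 := by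
      by_contra hcon
      push Not at hcon
      nlinarith
    exact Real.exp_le_one_iff.1 h3
  have hHlow : ∀ z ∈ ball (0 : ℂ) 1, -(H z).re ≤ Real.log (KF c / ε) := by
    intro z hz
    have h2 := hdn z hz
    rw [norm_inv, hnH z hz] at h2
    have h3 : ε ≤ KF c * Real.exp (H z).re :=
      (inv_le_inv₀ (by positivity) hε).1 h2
    rw [Real.le_log_iff_exp_le (by positivity), Real.exp_neg, le_div_iff₀ hε,
      inv_mul_le_iff₀ (Real.exp_pos _)]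
    linarith
  set N : Set ℝ := (fun z => -(H z).re) '' ball (0 : ℂ) 1 with hN
  have hNb : BddAbove N := ⟨Real.log (KF c / ε), by
    rintro _ ⟨z, hz, rfl⟩
    exact hHlow z hz⟩
  have hNne : N.Nonempty := ⟨_, 0, mem_ball_self one_pos, rfl⟩
  set M := sSup N with hM
  have hMz : ∀ z ∈ ball (0 : ℂ) 1, -M ≤ (H z).re := by
    intro z hz
    have := le_csSup hNb ⟨z, hz, rfl⟩
    simp only at this
    linarith
  have hdom : ∀ δ > 0, ∃ r < 1, ∀ z : ℂ, r ≤ ‖z‖ → ‖z‖ < 1 →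
      ‖f z‖ ≤ KF c * (1 + δ) * Real.exp (H z).re * ‖g z‖ := by
    intro δ hδ
    obtain ⟨ρ, hρ, hρ2⟩ := hcmp hδ
    refine ⟨ρ, hρ, fun z hz hz1 => ?_⟩
    have h2 := (hρ2 z hz hz1).1
    rw [hnH z (mem_ball_zero_iff.2 hz1)] at h2
    refine h2.trans (le_of_eq ?_)
    ring
  rcases le_or_gt M 0 with hM0 | hM0
  · -- constant modulus
    have hc : ∀ z ∈ ball (0 : ℂ) 1, ‖χ z‖ = KF c := by
      intro z hz
      have h2 : (H z).re = 0 := le_antisymm (hH0 z hz) (by linarith [hMz z hz])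
      rw [hnH z hz, h2, Real.exp_zero, mul_one]
    have hconst : ∀ z ∈ ball (0 : ℂ) 1, χ z = χ 0 := by
      intro z hz
      exact Complex.eqOn_of_isPreconnected_of_isMaxOn_norm
        (convex_ball (0 : ℂ) 1).isPreconnected isOpen_ball hχ (mem_ball_self one_pos)
        (fun y hy => by
          show ‖χ y‖ ≤ ‖χ 0‖
          rw [hc y hy, hc 0 (mem_ball_self one_pos)]) hz
    refine ⟨C (χ 0) * ((t.map fun b => (X - C b : ℂ[X])).prod *
      (s.map fun a => (1 - C ((starRingEnd ℂ) a) * X : ℂ[X])).prod),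
      (s.map fun a => (X - C a : ℂ[X])).prod *
      (t.map fun b => (1 - C ((starRingEnd ℂ) b) * X : ℂ[X])).prod, fun z hz => ?_,
      fun z hz => ?_⟩
    · obtain ⟨a1, a2, a3⟩ := prod_on_circle hs hz
      obtain ⟨b1, b2, b3⟩ := prod_on_circle ht hz
      rw [eval_mul, eval_mul, eval_mul, eval_C, eval_prod_sub, eval_prod_rev, eval_prod_sub,
        eval_prod_rev]
      refine ⟨mul_ne_zero a1 b2, ?_⟩
      rw [norm_mul, norm_mul, norm_mul, hc 0 (mem_ball_self one_pos), b3, ← a3]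
      ring
    · rw [eval_mul, eval_mul, eval_mul, eval_C, eval_prod_sub, eval_prod_rev, eval_prod_sub,
        eval_prod_rev, he z hz, hconst z hz]
      ring
  · exfalso
    refine no_gap h0 h1 h hH hM0 hMz hH0 (fun δ hδ => ?_) hdom
    obtain ⟨_, ⟨z, hz, rfl⟩, h2⟩ := exists_lt_of_lt_csSup hNne
      (show M - δ < sSup N by rw [← hM]; linarith)
    refine ⟨z, hz, ?_⟩
    simp only at h2
    linarith

end Pool.Agent.Helper23.KU
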