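import Pool.Agent.Helper54.KU.Zeros

/-!
# KU: analytic functions on the disc with constant modulus on the circle
-/

set_option autoImplicit false

namespace Pool.Agent.Helper82.KU

open Filter Topology Metric Set
open Pool.Agent.Helper23.KU (fin_zeros_closed)

theorem norm_one_sub_conj {b z : ℂ} (hz : ‖z‖ = 1) :
    ‖1 - (starRingEnd ℂ) b * z‖ = ‖z - b‖ := by
  have h1 : (starRingEnd ℂ) z * z = 1 := by
    rw [mul_comm, Complex.mul_conj, Complex.normSq_eq_norm_sq, hz]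
    simp
  have h2 : 1 - (starRingEnd ℂ) b * z = (starRingEnd ℂ) (z - b) * z := by
    rw [map_sub, sub_mul, h1]
  rw [h2, norm_mul, Complex.norm_conj, hz, mul_one]

theorem one_sub_conj_ne {b z : ℂ} (hb : ‖b‖ < 1) (hz : ‖z‖ ≤ 1) :
    1 - (starRingEnd ℂ) b * z ≠ 0 := by
  intro h
  have h1 : (starRingEnd ℂ) b * z = 1 := (sub_eq_zero.1 h).symm
  have h2 : ‖(starRingEnd ℂ) b * z‖ < 1 := by
    rw [norm_mul, Complex.norm_conj]
    calc ‖b‖ * ‖z‖ ≤ ‖b‖ * 1 := mul_le_mul_of_nonneg_left hz (norm_nonneg _)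
      _ < 1 := by linarith
  rw [h1, norm_one] at h2
  exact lt_irrefl _ h2

theorem prod_map_ne {s : Multiset ℂ} {f : ℂ → ℂ} (h : ∀ b ∈ s, f b ≠ 0) :
    (s.map f).prod ≠ 0 := by
  refine Multiset.prod_ne_zero fun h0 => ?_
  obtain ⟨b, hb, hb2⟩ := Multiset.mem_map.1 h0
  exact h b hb hb2

theorem norm_prod_map (s : Multiset ℂ) (f g : ℂ → ℂ) (h : ∀ b ∈ s, ‖f b‖ = ‖g b‖) :
    ‖(s.map f).prod‖ = ‖(s.map g).prod‖ := by
  induction s using Multiset.induction_on with
  | empty => simp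
  | cons a s ih =>
    rw [Multiset.map_cons, Multiset.prod_cons, Multiset.map_cons, Multiset.prod_cons, norm_mul,
      norm_mul, ih fun b hb => h b (Multiset.mem_cons_of_mem hb), h a (Multiset.mem_cons_self a s)]

theorem differentiable_prod_map (s : Multiset ℂ) :
    Differentiable ℂ fun z : ℂ => (s.map fun b => 1 - (starRingEnd ℂ) b * z).prod := by
  induction s using Multiset.induction_on with
  | empty => simp
  | cons a s ih =>
    simp only [Multiset.map_cons, Multiset.prod_cons]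
    exact ((differentiable_const _).sub ((differentiable_const _).mul differentiable_id)).mul ih

/-- P3 -/
theorem blaschke {χ : ℂ → ℂ} {F : ℝ} (hF : 0 < F) (hc : ContinuousOn χ (closedBall 0 1))
    (hd : DifferentiableOn ℂ χ (ball 0 1)) (h1 : ∀ z : ℂ, ‖z‖ = 1 → ‖χ z‖ = F) :
    ∃ (s : Multiset ℂ) (κ : ℂ), (∀ b ∈ s, ‖b‖ < 1) ∧ ∀ z ∈ ball (0 : ℂ) 1,
      χ z * (s.map fun b => 1 - (starRingEnd ℂ) b * z).prod =
        κ * (s.map fun b => z - b).prod := by
  -- the zeros stay away from the circle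
  have hcl : closure (ball (0 : ℂ) 1) = closedBall 0 1 := closure_ball 0 one_ne_zero
  obtain ⟨r, hr, hz⟩ : ∃ r : ℝ, r < 1 ∧ ∀ z : ℂ, ‖z‖ ≤ 1 → χ z = 0 → ‖z‖ ≤ r := by
    have hK : IsCompact {z ∈ closedBall (0 : ℂ) 1 | χ z = 0} := by
      have : {z ∈ closedBall (0 : ℂ) 1 | χ z = 0} = closedBall (0 : ℂ) 1 ∩ χ ⁻¹' {0} := rfl
      rw [this]
      exact (isCompact_closedBall (0 : ℂ) 1).of_isClosed_subset
        (hc.preimage_isClosed_of_isClosed isClosed_closedBall isClosed_singleton)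
        inter_subset_left
    rcases {z ∈ closedBall (0 : ℂ) 1 | χ z = 0}.eq_empty_or_nonempty with he | hne
    · refine ⟨0, zero_lt_one, fun z hz1 hz2 => ?_⟩
      have : z ∈ {z ∈ closedBall (0 : ℂ) 1 | χ z = 0} := ⟨mem_closedBall_zero_iff.2 hz1, hz2⟩
      rw [he] at this
      exact this.elim
    · obtain ⟨w, hw, hmax⟩ := hK.exists_isMaxOn hne continuous_norm.continuousOn
      refine ⟨‖w‖, ?_, fun z hz1 hz2 => hmax ⟨mem_closedBall_zero_iff.2 hz1, hz2⟩⟩
      refine lt_of_le_of_ne (mem_closedBall_zero_iff.1 hw.1) fun h => ?_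
      have := h1 w h
      rw [hw.2, norm_zero] at this
      exact hF.ne this
  have hu0 : ∃ z ∈ ball (0 : ℂ) 1, χ z ≠ 0 := by
    have hr1 : max r 0 < 1 := max_lt hr zero_lt_one
    obtain ⟨t, ht1, ht2⟩ := exists_between hr1
    have ht0 : 0 < t := lt_of_le_of_lt (le_max_right _ _) ht1
    have hn : ‖(t : ℂ)‖ = t := by
      rw [Complex.norm_real, Real.norm_of_nonneg ht0.le]
    refine ⟨t, by rw [mem_ball_zero_iff, hn]; exact ht2, fun h0 => ?_⟩
    have := hz t (by rw [hn]; exact ht2.le) h0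
    rw [hn] at this
    exact absurd (lt_of_le_of_lt (le_max_left r 0) ht1) (not_lt.2 this)
  obtain ⟨s, v, hs, hvc, hvd, hv0, hv⟩ := fin_zeros_closed hc hd hu0 hr
  have hs1 : ∀ b ∈ s, ‖b‖ < 1 := fun b hb => (hs b hb).trans_lt hr
  have hvne : ∀ z ∈ closedBall (0 : ℂ) 1, v z ≠ 0 := by
    intro z hz1 h0
    rcases le_or_gt ‖z‖ r with h | h
    · exact hv0 z h h0
    · have := hz z (mem_closedBall_zero_iff.1 hz1) (by rw [hv z hz1, h0, mul_zero])
      linarith
  set w : ℂ → ℂ := fun z => v z * (s.map fun b => 1 - (starRingEnd ℂ) b * z).prod with hw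
  have hwd : DiffContOnCl ℂ w (ball 0 1) := by
    refine ⟨hvd.mul (differentiable_prod_map s).differentiableOn, ?_⟩
    rw [hcl]
    exact hvc.mul (differentiable_prod_map s).continuous.continuousOn
  have hwne : ∀ z ∈ closure (ball (0 : ℂ) 1), w z ≠ 0 := by
    intro z hz1
    rw [hcl] at hz1
    refine mul_ne_zero (hvne z hz1) (prod_map_ne fun b hb => ?_)
    exact one_sub_conj_ne (hs1 b hb) (mem_closedBall_zero_iff.1 hz1)
  have hwF : ∀ z ∈ frontier (ball (0 : ℂ) 1), ‖w z‖ = F := by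
    intro z hz1
    rw [frontier_ball (0 : ℂ) one_ne_zero, mem_sphere_zero_iff_norm] at hz1
    rw [← h1 z hz1, hv z (mem_closedBall_zero_iff.2 hz1.le), hw]
    simp only [norm_mul]
    rw [mul_comm, norm_prod_map s _ (fun b => z - b) fun b _ => norm_one_sub_conj hz1]
  have hbd : Bornology.IsBounded (ball (0 : ℂ) 1) := isBounded_ball
  have hle : ∀ z ∈ closure (ball (0 : ℂ) 1), ‖w z‖ ≤ F := fun z hz1 =>
    Complex.norm_le_of_forall_mem_frontier_norm_le hbd hwd (fun y hy => (hwF y hy).le) hz1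
  have hge : ∀ z ∈ closure (ball (0 : ℂ) 1), F ≤ ‖w z‖ := by
    intro z hz1
    have h2 := Complex.norm_le_of_forall_mem_frontier_norm_le hbd (hwd.inv hwne)
      (C := F⁻¹) (fun y hy => by rw [Pi.inv_apply, norm_inv, hwF y hy]) hz1
    rw [Pi.inv_apply, norm_inv] at h2
    exact (inv_le_inv₀ (norm_pos_iff.2 (hwne z hz1)) hF).1 h2
  have h0c : (0 : ℂ) ∈ closure (ball (0 : ℂ) 1) := subset_closure (mem_ball_self one_pos)
  have hconst := Complex.eqOn_closedBall_of_isMaxOn_norm hwd (fun y hy => by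
    show ‖w y‖ ≤ ‖w 0‖
    exact (hle y (subset_closure hy)).trans (hge 0 h0c))
  refine ⟨s, w 0, hs1, fun z hz1 => ?_⟩
  have hzc : z ∈ closedBall (0 : ℂ) 1 := ball_subset_closedBall hz1
  have h2 : w z = w 0 := hconst hzc
  rw [← h2, hv z hzc, hw]
  ring

end Pool.Agent.Helper82.KU
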