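import Pool.Agent.Helper82.KU.Below
import Pool.Agent.Helper23.KU.ZDefs

/-!
# KU, stage Z: the end of the proof
-/

set_option autoImplicit false

namespace Pool.Agent.Helper23.KU

open Polynomial Filter Topology Metric MeasureTheory Set
open Pool.Agent.Helper23.KB (Sph Dom KF Ext)

/-- Z8a -/
theorem end_game {c : ℝ} (h0 : 0 < c) (h1 : c < 1) {f g A : ℂ → ℂ} {s t : Multiset ℂ}
    (h : Ext c f g) (hf : Fact c f g s t A) {M : ℝ}
    (hM : ∀ z ∈ ball (0 : ℂ) 1, (A z).re ≤ M) :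
    ∀ z ∈ ball (0 : ℂ) 1, (A z).re = 0 := by
  obtain ⟨hs, ht, hA, hA0, he⟩ := hf
  have hF : 0 < KF c := kf_pos' h0 h1
  have hs1 : ∀ a ∈ s, ‖a‖ < 1 := fun a ha => (hs a ha).trans h1
  set N : Set ℝ := (fun z => (A z).re) '' ball (0 : ℂ) 1 with hN
  have hNb : BddAbove N := ⟨M, by
    rintro _ ⟨z, hz, rfl⟩
    exact hM z hz⟩
  have hNne : N.Nonempty := ⟨_, 0, mem_ball_self one_pos, rfl⟩
  have hle : ∀ z ∈ ball (0 : ℂ) 1, (A z).re ≤ sSup N := fun z hz => le_csSup hNb ⟨z, hz, rfl⟩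
  rcases le_or_gt (sSup N) 0 with hM0 | hM0
  · exact fun z hz => le_antisymm ((hle z hz).trans hM0) (hA0 z hz)
  · exfalso
    refine no_gap h0 h1 h (H := fun z => -A z) hA.neg hM0 (fun z hz => ?_) (fun z hz => ?_)
      (fun δ hδ => ?_) (fun δ hδ => ?_)
    · rw [Complex.neg_re]
      linarith [hle z hz]
    · rw [Complex.neg_re]
      linarith [hA0 z hz]
    · obtain ⟨_, ⟨z, hz, rfl⟩, h2⟩ := exists_lt_of_lt_csSup hNne
        (show sSup N - δ < sSup N by linarith)
      refine ⟨z, hz, ?_⟩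
      simp only at h2
      rw [Complex.neg_re]
      linarith
    · obtain ⟨ρ, hρ, hρ2⟩ := cmp_circle (χ := fun z => (KF c : ℂ) * Complex.exp (-A z)) hs1 ht
        (f := f) (g := g) (fun z hz => by
          have h2 := he z hz
          unfold mm mr at h2
          rw [h2]
          ring) hδ
      refine ⟨ρ, hρ, fun z hz hz1 => ?_⟩
      have h2 := (hρ2 z hz hz1).1
      rw [norm_mul, Complex.norm_exp, Complex.norm_real, Real.norm_of_nonneg hF.le] at h2
      refine h2.trans (le_of_eq ?_)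
      ring

end Pool.Agent.Helper23.KU
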